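import Pool.Agent.H487.GP.Stm

/-!
# Project GP (helper487), part LEV2: Lévy's theorem with uniform convergence (helper295)
-/

set_option autoImplicit false

open Finset Complex Filter Topology Metric Set MeasureTheory

namespace Pool.Agent.H295.GP.LEV2

open ProbabilityTheory

/-- the distribution functions of the Gaussian laws are Lipschitz -/
theorem gauss_lip (s : NNReal) (hs : s ≠ 0) : ∃ C : ℝ, 0 ≤ C ∧ ∀ a b : ℝ, a ≤ b →
    (gaussianReal 0 s).real (Set.Iic b) - (gaussianReal 0 s).real (Set.Iic a) ≤ C * (b - a) := by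
  refine ⟨(Real.sqrt (2 * Real.pi * s))⁻¹, by positivity, fun a b hab => ?_⟩
  have h1 : Set.Iic b = Set.Iic a ∪ Set.Ioc a b := (Set.Iic_union_Ioc_eq_Iic hab).symm
  have h2 : (gaussianReal 0 s).real (Set.Iic b) ≤ (gaussianReal 0 s).real (Set.Iic a) +
      (gaussianReal 0 s).real (Set.Ioc a b) := by
    rw [h1]
    exact measureReal_union_le _ _
  have h3 : gaussianReal 0 s (Set.Ioc a b) ≤
      ENNReal.ofReal ((Real.sqrt (2 * Real.pi * s))⁻¹ * (b - a)) := by
    rw [gaussianReal_of_var_ne_zero 0 hs, withDensity_apply _ measurableSet_Ioc]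
    calc ∫⁻ x in Set.Ioc a b, gaussianPDF 0 s x ≤
        ∫⁻ _ in Set.Ioc a b, ENNReal.ofReal ((Real.sqrt (2 * Real.pi * s))⁻¹) := by
          refine lintegral_mono fun x => ?_
          rw [gaussianPDF_def]
          refine ENNReal.ofReal_le_ofReal ?_
          rw [gaussianPDFReal_def]
          have h4 : Real.exp (-(x - 0) ^ 2 / (2 * (s : ℝ))) ≤ 1 := by
            rw [Real.exp_le_one_iff]
            exact div_nonpos_of_nonpos_of_nonneg (neg_nonpos.2 (sq_nonneg _)) (by positivity)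
          have h5 : 0 ≤ (Real.sqrt (2 * Real.pi * (s : ℝ)))⁻¹ := by positivity
          nlinarith
      _ = ENNReal.ofReal ((Real.sqrt (2 * Real.pi * s))⁻¹ * (b - a)) := by
          rw [setLIntegral_const, Real.volume_Ioc, ← ENNReal.ofReal_mul (by positivity)]
  have h6 : (gaussianReal 0 s).real (Set.Ioc a b) ≤ (Real.sqrt (2 * Real.pi * s))⁻¹ * (b - a) :=
    ENNReal.toReal_le_of_le_ofReal (mul_nonneg (by positivity) (sub_nonneg.2 hab)) h3
  linarith

/-- pointwise convergence of the distribution functions -/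
theorem levy (s : NNReal) (hs : s ≠ 0) (μ : ℕ → Measure ℝ) (hμ : ∀ n, IsProbabilityMeasure (μ n))
    (hu : ∀ u : ℝ, Tendsto (fun n => charFun (μ n) u) atTop
      (𝓝 (cexp (-((s : ℝ) : ℂ) * (u : ℂ) ^ 2 / 2)))) (a : ℝ) :
    Tendsto (fun n => (μ n).real (Set.Iic a)) atTop (𝓝 ((gaussianReal 0 s).real (Set.Iic a))) := by
  have hna : NullSingletonClass (gaussianReal 0 s) := nullSingletonClass_gaussianReal hs
  obtain ⟨P, hP⟩ : ∃ P : ℕ → ProbabilityMeasure ℝ, ∀ n, (P n : Measure ℝ) = μ n :=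
    ⟨fun n => ⟨μ n, hμ n⟩, fun _ => rfl⟩
  obtain ⟨P0, hP0⟩ : ∃ P0 : ProbabilityMeasure ℝ, (P0 : Measure ℝ) = gaussianReal 0 s :=
    ⟨⟨gaussianReal 0 s, inferInstance⟩, rfl⟩
  have h1 : Tendsto P atTop (𝓝 P0) := by
    apply ProbabilityMeasure.tendsto_of_tendsto_charFun
    intro t
    have e : charFun (P0 : Measure ℝ) t = cexp (-((s : ℝ) : ℂ) * (t : ℂ) ^ 2 / 2) := by
      rw [hP0, charFun_gaussianReal]
      congr 1
      push_cast
      ring
    rw [e]
    refine (hu t).congr fun n => ?_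
    rw [hP]
  have h3 := ProbabilityMeasure.tendsto_measure_of_null_frontier_of_tendsto' h1
    (E := Set.Iic a) (by
      rw [frontier_Iic, hP0]
      exact measure_singleton a)
  rw [hP0] at h3
  refine ((ENNReal.tendsto_toReal (measure_ne_top _ _)).comp h3).congr fun n => ?_
  rw [Function.comp_apply, hP]
  rfl

/-- **Polya's theorem** -/
theorem polya (ν : Measure ℝ) [IsProbabilityMeasure ν] (C : ℝ) (hC : 0 ≤ C)
    (hlip : ∀ a b : ℝ, a ≤ b → ν.real (Set.Iic b) - ν.real (Set.Iic a) ≤ C * (b - a))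
    (μ : ℕ → Measure ℝ) (hμ : ∀ n, IsProbabilityMeasure (μ n))
    (h : ∀ a : ℝ, Tendsto (fun n => (μ n).real (Set.Iic a)) atTop (𝓝 (ν.real (Set.Iic a))))
    (ε : ℝ) (hε : 0 < ε) :
    ∀ᶠ n in atTop, ∀ a : ℝ, |(μ n).real (Set.Iic a) - ν.real (Set.Iic a)| ≤ ε := by
  have hbot : ∀ᶠ x : ℝ in atBot, ν.real (Set.Iic x) < ε / 2 := by
    have h1 := (tendsto_cdf_atBot ν).eventually (gt_mem_nhds (half_pos hε))
    filter_upwards [h1] with x hx
    rwa [cdf_eq_real] at hx
  have htop : ∀ᶠ x : ℝ in atTop, 1 - ε / 2 < ν.real (Set.Iic x) := by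
    have h1 := (tendsto_cdf_atTop ν).eventually (lt_mem_nhds (show 1 - ε / 2 < 1 by linarith))
    filter_upwards [h1] with x hx
    rwa [cdf_eq_real] at hx
  obtain ⟨A, hA⟩ := hbot.exists
  obtain ⟨B, hB, hAB⟩ := (htop.and (eventually_gt_atTop A)).exists
  -- the grid
  obtain ⟨d, hd⟩ : ∃ d : ℝ, d = ε / (2 * (C + 1)) := ⟨_, rfl⟩
  have hd0 : 0 < d := by rw [hd]; positivity
  have hCd : C * d ≤ ε / 2 := by
    rw [hd]
    have e1 : C * (ε / (2 * (C + 1))) = ε / 2 * (C / (C + 1)) := by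
      field_simp
    have e2 : C / (C + 1) ≤ 1 := by
      rw [div_le_one (by linarith)]
      linarith
    rw [e1]
    nlinarith
  obtain ⟨N, hN⟩ := exists_nat_gt ((B - A) / d)
  have hN' : B < A + N * d := by
    rw [div_lt_iff₀ hd0] at hN
    linarith
  have hgrid : ∀ᶠ n in atTop, ∀ j ∈ Finset.range (N + 1),
      |(μ n).real (Set.Iic (A + j * d)) - ν.real (Set.Iic (A + j * d))| < ε / 2 := by
    rw [Filter.eventually_all_finset]
    intro j _
    have h1 := h (A + j * d)
    rw [Metric.tendsto_atTop] at h1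
    obtain ⟨n0, hn0⟩ := h1 (ε / 2) (half_pos hε)
    filter_upwards [eventually_ge_atTop n0] with n hn
    have h2 := hn0 n hn
    rwa [Real.dist_eq] at h2
  filter_upwards [hgrid] with n hn a
  have := hμ n
  have hmon : ∀ x y : ℝ, x ≤ y → (μ n).real (Set.Iic x) ≤ (μ n).real (Set.Iic y) := fun x y hxy =>
    measureReal_mono (Set.Iic_subset_Iic.2 hxy)
  have hmon' : ∀ x y : ℝ, x ≤ y → ν.real (Set.Iic x) ≤ ν.real (Set.Iic y) := fun x y hxy =>
    measureReal_mono (Set.Iic_subset_Iic.2 hxy)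
  have h0 : 0 ≤ (μ n).real (Set.Iic a) := measureReal_nonneg
  have h0' : 0 ≤ ν.real (Set.Iic a) := measureReal_nonneg
  have h1 : (μ n).real (Set.Iic a) ≤ 1 := measureReal_le_one
  have h1' : ν.real (Set.Iic a) ≤ 1 := measureReal_le_one
  rcases lt_or_ge a A with ha | ha
  · -- left tail
    have g0 := hn 0 (Finset.mem_range.2 (Nat.succ_pos N))
    rw [Nat.cast_zero, zero_mul, add_zero, abs_lt] at g0
    have g1 := hmon a A ha.le
    have g2 := hmon' a A ha.le
    rw [abs_le]
    constructor <;> linarith [g0.1, g0.2]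
  · obtain ⟨j, hj⟩ : ∃ j : ℕ, j = ⌊(a - A) / d⌋₊ := ⟨_, rfl⟩
    have hq : 0 ≤ (a - A) / d := div_nonneg (sub_nonneg.2 ha) hd0.le
    have hj1 : A + j * d ≤ a := by
      have e := Nat.floor_le hq
      rw [← hj, le_div_iff₀ hd0] at e
      linarith
    have hj2 : a < A + ((j + 1 : ℕ) : ℝ) * d := by
      have e := Nat.lt_floor_add_one ((a - A) / d)
      rw [← hj, div_lt_iff₀ hd0] at e
      push_cast
      linarith
    rcases Nat.lt_or_ge j N with hjN | hjN
    · -- in the grid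
      have g0 := hn j (Finset.mem_range.2 (by omega))
      have g1 := hn (j + 1) (Finset.mem_range.2 (by omega))
      rw [abs_lt] at g0 g1
      have m1 := hmon _ _ hj1
      have m2 := hmon _ _ hj2.le
      have l1 := hlip _ _ hj1
      have l2 := hlip _ _ hj2.le
      have e1 : C * (a - (A + j * d)) ≤ C * d := by
        refine mul_le_mul_of_nonneg_left ?_ hC
        push_cast at hj2
        linarith
      have e2 : C * (A + ((j + 1 : ℕ) : ℝ) * d - a) ≤ C * d := by
        refine mul_le_mul_of_nonneg_left ?_ hC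
        push_cast
        linarith
      rw [abs_le]
      constructor
      · linarith [g0.1, g0.2, g1.1, g1.2]
      · linarith [g0.1, g0.2, g1.1, g1.2]
    · -- right tail
      have g0 := hn N (Finset.mem_range.2 (Nat.lt_succ_self N))
      rw [abs_lt] at g0
      have hNa : A + N * d ≤ a := by
        have e : (N : ℝ) ≤ j := by exact_mod_cast hjN
        have e' := mul_le_mul_of_nonneg_right e hd0.le
        linarith
      have m1 := hmon _ _ hNa
      have m2 := hmon' B (A + N * d) hN'.le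
      have m3 := hmon' B a (hN'.le.trans hNa)
      rw [abs_le]
      constructor <;> linarith [g0.1, g0.2]

theorem lev2 (s : NNReal) (hs : s ≠ 0) (μ : ℕ → Measure ℝ) (hμ : ∀ n, IsProbabilityMeasure (μ n))
    (hu : ∀ u : ℝ, Tendsto (fun n => charFun (μ n) u) atTop
      (𝓝 (cexp (-((s : ℝ) : ℂ) * (u : ℂ) ^ 2 / 2)))) (ε : ℝ) (hε : 0 < ε) :
    ∀ᶠ n in atTop, ∀ a : ℝ,
      |(μ n).real (Set.Iic a) - (gaussianReal 0 s).real (Set.Iic a)| ≤ ε := by
  obtain ⟨C, hC, hlip⟩ := gauss_lip s hs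
  exact polya (gaussianReal 0 s) C hC hlip μ hμ (levy s hs μ hμ hu) ε hε

theorem lev2_proof : Pool.Agent.H487.GP.S_LEV2 := by
  intro s hs μ hμ hu ε hε
  exact lev2 s hs μ hμ hu ε hε

end Pool.Agent.H295.GP.LEV2
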